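import Pool.Agent.Results.MP_c9768e_nt.RandomCombinations
import Pool.Agent.Run7.h469.Ns
import Pool.Agent.Run7.h469.Cnt

/-!
# Elliptic logarithms and logarithms of products of powers with exponents near a generic subspace

Let `Ω` be a lattice with algebraic invariants `g₂`, `g₃` and let `p_1, …, p_m` be ARBITRARY elliptic logarithms of algebraic
points (`℘ (p_i)` is algebraic, or `p_i ∈ Ω`), linearly independent over `End(ℂ/Ω) ⊗ ℚ`. Let `LogForms` be the space of all linear
combinations, with algebraic coefficients, of `1` and logarithms of algebraic numbers, for every `j ≤ n` let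
`λ_{j,1}, …, λ_{j,k}` be elements of `LogForms` which are linearly independent over `ℚ̄`, for instance `ℚ`-linearly independent
logarithms of algebraic numbers, and `ζ_j ∈ LogForms`. For an integral `n × k` matrix `a` let `y_j = ζ_j + ∑_i a_{j,i} λ_{j,i}`,
for instance the logarithms of the products `∏_i β_{j,i}^(a_{j,i})` of algebraic numbers. There is a space `F ⊆ LogForms` of
bounded dimension, which depends only on `Ω` and the `p_i`, such that the following holds. We say that `y` has no relation if the
`y_j` are linearly independent over `ℚ̄` modulo `F`, and there is no relation `P (p_1, …, p_m, y_1, …, y_n, l_1, …, l_t) = 0`,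
where `P` is a nonzero polynomial with algebraic coefficients, of degree at most `D` in every `y_i`, of total degree at most `1` in
the `p_i` (of degree at most `D` in `p`, if `m = 1`), and of total degree at most `1` in ARBITRARY elements `l_j` of `LogForms`
which are linearly independent over `ℚ̄` modulo `F` and the `y_i`.

Theorem. There are `k₀` and `δ > 0`, depending only on `m`, `n` and `D`, with the following property. Let `k ≥ k₀`, `h ≥ 0` and
`0 ≤ θ < 1`. (1) For all systems `α` of `h` real `n × k` matrices outside a set of Hausdorff dimension at most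
`n k (h - 1) + (n k - δ k + h) / (1 - θ)` (less than `n k h`, if `h + n k θ < δ k`) and all `A`, for ALL but finitely many of the
integral matrices `a`, for which the distance of `a` to some point `∑ x_l α_l` of the space spanned by `α` is at most
`A (1 + |x|)^θ`, the row `y` has no relation. (2) If `h ≥ 1` and `h + n k θ < δ k`, then for almost all `α` this is true for ALL
`λ` and ALL `ζ` at the same time.

So for almost all real `n × k` matrices `α` and all large integers `v` the `p_i` and the logarithms of the numbers
`∏_i q_i^⌊v α_{j,i}⌋`, `q_i` arbitrary primes, have no relation of this kind (`h = 1`, `θ = 0`, `k ≥ k₀`, `δ k > 1`). The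
dimension `h` of the subspaces can be large, up to `δ k`. As `A` is arbitrary, the same holds for the integral matrices near the
affine subspaces parallel to the given one.

The theorem `RandomCombinations` of this problem (of our team) shows that for an arbitrary finite set `X` of rational numbers all
but `C |X|^(n k - δ k)` of the matrices with entries in `X` give a row without relations. For `X = {-T, …, T}` and fixed `k` this
is a power saving, by the power `δ k` of `T`, and this power is larger than the dimension `h`. A covering argument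
(`Pool.Agent.N251.LF.Tuples` of the starting library, where it is applied to tuples of integers) bounds the dimension of the
exceptional set of `α`; `LogForms` is countable, which gives (2).
-/

set_option autoImplicit false

namespace Pool.Agent.Results.MP_c9768e_nt.NearGenericSubspaces

open Module MeasureTheory
open Run7.h469.Ns (Near NearSubspaces NearAlmostAll near_rat near_int)
open Pool.Agent.Results.MP_c9768e_nt.RandomCombinations (LogForms EllipticLogs NoRelation)

/-- **Elliptic logarithms and logarithms near generic subspaces.** There are `k₀` and `δ > 0`, depending only on `m`, `n` and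
`D`, such that for all lattices `L` with algebraic invariants and all elliptic logarithms `p` there is `F`, as in the theorem
`RandomCombinations`, such that for all `k ≥ k₀`, `h` and `0 ≤ θ < 1`: (1) for all `λ` and `ζ`, for all systems `α` of `h` real
`n × k` matrices outside a set of dimension at most `n k (h - 1) + (n k - δ k + h) / (1 - θ)`, for all `A`, for all but finitely
many of the integral matrices `a` within `A (1 + |x|)^θ` of some point `∑ x_l α_l` of the space spanned by `α` the row
`y_j = ζ_j + ∑_i a_{j,i} λ_{j,i}` has no relation; (2) if `h ≥ 1` and `h + n k θ < δ k`, then for almost all `α` this is true for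
ALL `λ` and `ζ`. -/
theorem result (m n D : ℕ) (hn : 1 ≤ n) : ∃ (k₀ : ℕ) (δ : ℝ), 0 < δ ∧ ∀ L : PeriodPair,
    IsAlgebraic ℚ L.g₂ → IsAlgebraic ℚ L.g₃ → ∀ p : Fin m → ℂ, EllipticLogs L p →
    ∃ F : Submodule (algebraicClosure ℚ ℂ) ℂ, Module.Finite (algebraicClosure ℚ ℂ) F ∧
      finrank (algebraicClosure ℚ ℂ) F ≤ (m + D + 2) ^ 3 + 1 ∧ F ≤ LogForms ∧
      ∀ k ≥ k₀, ∀ (h : ℕ) (θ : ℝ), 0 ≤ θ → θ < 1 →
        (∀ lam : Fin n → Fin k → ℂ, (∀ j i, lam j i ∈ LogForms) →
          (∀ j, LinearIndependent (algebraicClosure ℚ ℂ) (lam j)) → ∀ ζ : Fin n → ℂ, (∀ j, ζ j ∈ LogForms) →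
          NearSubspaces n k h ((n : ℝ) * k * (h - 1) + (n * k - δ * k + h) / (1 - θ)) θ
            (fun a => NoRelation D p F (fun j => ζ j + ∑ i, (a j i : ℂ) * lam j i))) ∧
        (1 ≤ h → (h : ℝ) + n * k * θ < δ * k → ∀ᵐ α : Fin n × Fin k × Fin h → ℝ,
          ∀ (lam : Fin n → Fin k → ℂ) (ζ : Fin n → ℂ), (∀ j i, lam j i ∈ LogForms) →
          (∀ j, LinearIndependent (algebraicClosure ℚ ℂ) (lam j)) → (∀ j, ζ j ∈ LogForms) →
          ∀ A : ℝ, {a ∈ Near α A θ | ¬ NoRelation D p F (fun j => ζ j + ∑ i, (a j i : ℂ) * lam j i)}.Finite) := by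
  obtain ⟨k₀, C, δ, hδ, hR⟩ := Pool.Agent.Results.MP_c9768e_nt.RandomCombinations.result m n D
  refine ⟨max k₀ 1, min δ 1, lt_min hδ one_pos, fun L hL2 hL3 p hp => ?_⟩
  obtain ⟨F, hF1, hF2, hF3, hF⟩ := hR L hL2 hL3 p hp
  refine ⟨F, hF1, hF2, hF3, fun k hk h θ hθ0 hθ => ?_⟩
  have hk1 : 1 ≤ k := (le_max_right _ _).trans hk
  have hk0 : k ≥ k₀ := (le_max_left _ _).trans hk
  have key : ∀ lam : Fin n → Fin k → ℂ, (∀ j i, lam j i ∈ LogForms) →
      (∀ j, LinearIndependent (algebraicClosure ℚ ℂ) (lam j)) → ∀ ζ : Fin n → ℂ, (∀ j, ζ j ∈ LogForms) →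
      NearSubspaces n k h ((n : ℝ) * k * (h - 1) + (n * k - min δ 1 * k + h) / (1 - θ)) θ
        (fun a => NoRelation D p F (fun j => ζ j + ∑ i, (a j i : ℂ) * lam j i)) ∧
      (1 ≤ h → (h : ℝ) + n * k * θ < min δ 1 * k → NearAlmostAll n k h θ
        (fun a => NoRelation D p F (fun j => ζ j + ∑ i, (a j i : ℂ) * lam j i))) := by
    intro lam hlam hli ζ hζ
    have h1 := near_rat h hn hk1 (fun a => NoRelation D p F (fun j => ζ j + ∑ i, (a j i : ℂ) * lam j i))
      (Nat.cast_nonneg C)
      (fun X hX => by
        refine le_of_eq_of_le ?_ (hF k hk0 lam hlam hli ζ hζ X hX)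
        congr!) hθ0 hθ
    simpa only [Rat.cast_intCast] using h1
  refine ⟨fun lam hlam hli ζ hζ => (key lam hlam hli ζ hζ).1, fun hh hlt => ?_⟩
  have hL : (LogForms : Set ℂ).Countable := Run7.h469.Cnt.countable_logForms
  have hT : ((Set.univ.pi fun _ : Fin n => Set.univ.pi fun _ : Fin k => (LogForms : Set ℂ)) ×ˢ
      (Set.univ.pi fun _ : Fin n => (LogForms : Set ℂ))).Countable :=
    (Set.countable_univ_pi fun _ => Set.countable_univ_pi fun _ => hL).prod (Set.countable_univ_pi fun _ => hL)
  have hae : ∀ᵐ α : Fin n × Fin k × Fin h → ℝ,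
      ∀ t (_ : t ∈ ((Set.univ.pi fun _ : Fin n => Set.univ.pi fun _ : Fin k => (LogForms : Set ℂ)) ×ˢ
      (Set.univ.pi fun _ : Fin n => (LogForms : Set ℂ)))),
      (∀ j, LinearIndependent (algebraicClosure ℚ ℂ) (t.1 j)) →
      ∀ A : ℝ, {a ∈ Near α A θ | ¬ NoRelation D p F (fun j => t.2 j + ∑ i, (a j i : ℂ) * t.1 j i)}.Finite := by
    rw [ae_ball_iff hT]
    rintro ⟨lam, ζ⟩ ⟨hlam, hζ⟩
    by_cases hli : ∀ j, LinearIndependent (algebraicClosure ℚ ℂ) (lam j)
    · obtain ⟨-, h2⟩ := key lam (fun j i => hlam j (Set.mem_univ _) i (Set.mem_univ _)) hli ζ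
        (fun j => hζ j (Set.mem_univ _))
      filter_upwards [h2 hh hlt] with α hα _
      exact hα
    · exact Filter.Eventually.of_forall fun α h3 => absurd h3 hli
  filter_upwards [hae] with α hα lam ζ hlam hli hζ A
  exact hα (lam, ζ) ⟨fun j _ i _ => hlam j i, fun j _ => hζ j⟩ hli A

end Pool.Agent.Results.MP_c9768e_nt.NearGenericSubspaces
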