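import Pool.Agent.Run7.h788.RandFree
import Pool.Agent.R350.Inst
import Pool.Agent.R350.HJ

/-!
# Elliptic logarithms, random combinations of logarithms and arbitrary logarithms

Let `Ω` be a lattice with algebraic invariants `g₂`, `g₃` and let `p_1, …, p_m` be ARBITRARY elliptic
logarithms of algebraic points (`℘ (p_i)` is algebraic, or `p_i ∈ Ω`), linearly independent over
`k = End(ℂ/Ω) ⊗ ℚ`.  Let `LogForms` be the space of all linear combinations, with algebraic
coefficients, of `1` and logarithms of algebraic numbers.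

For every `j ≤ n` let `λ_{j,1}, …, λ_{j,k}` be arbitrary elements of `LogForms` which are linearly
independent over `ℚ̄`; for instance, by the theorem of Baker, any logarithms of algebraic numbers which
are linearly independent over `ℚ` (for different `j` they may be the same).  Let `ζ_j ∈ LogForms`, for
instance `0`.  For a matrix `a = (a_{j,i})` with entries in a finite set `X` of rational numbers, for
instance `{0, 1}`, let `y_j = ζ_j + ∑_i a_{j,i} λ_{j,i}`.

**Theorem.** There is a space `F ⊆ LogForms` of dimension at most `(m + D + 2) ^ 3 + 1`, which depends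
only on the `p_i`, such that for all but `C |X| ^ (n k - δ k)` of the `|X| ^ (n k)` matrices `a` the
`y_j` are linearly independent over `ℚ̄` modulo `F`, and there is no relation

  `P (p_1, …, p_m, y_1, …, y_n, l_1, …, l_t) = 0`

where `P` is a nonzero polynomial with algebraic coefficients, of degree at most `D` in every `y_i`, of
total degree at most `1` in the `p_i` (of degree at most `D` in `p`, if `m = 1`), and of total degree
at most `1` in ARBITRARY elements `l_j` of `LogForms` (any number of them, chosen after `a`) which are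
linearly independent over `ℚ̄` modulo `F` and the `y_i`.  Here `k ≥ k₀`, and `k₀`, `C`, `δ > 0` depend only
on `m`, `n`, `D`, and not on the lattice, the `p_i`, the `λ`, the `ζ` and on `X`.

For `ζ = 0` and `X = {0, 1}` the `y_j` are the logarithms of random products of `k` given
multiplicatively independent algebraic numbers: the exceptions are exponentially few in `k`.

The starting result `ArbitraryEllipticLogs` of this problem has logarithms of integers, with the saving
`(log log x) ^ C / log x`, and matrices with integral entries of absolute value at most `H`, where the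
number `N` of the logarithms is fixed and `H` tends to infinity, and the constant depends on `N`.

The proof.  The monomials in the `p_i` which are allowed are linearly independent over `ℚ̄` (Schneider,
Masser; starting library `Pool.Agent.W245.EB`, `Pool.Agent.R350.ell_setup`).  By the hyperplane case of
the linear subgroup theorem of Waldschmidt and Roy every cube in sufficiently many linearly independent
directions contains a point which has only formal relations (`Pool.Agent.R350.PD_all`), and an iterated
Cauchy-Schwarz inequality (`Pool.Agent.Y918.OL.cube_count`) shows that the exceptional parameters are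
exponentially rare (`Pool.Agent.Run7.h788.RandFree`).
-/

set_option autoImplicit false

namespace Pool.Agent.Results.MP_c9768e_nt.RandomCombinations

open Module MvPolynomial
open scoped PeriodPair

/-- the linear combinations, with algebraic coefficients, of `1` and logarithms of algebraic numbers -/
noncomputable def LogForms : Submodule (algebraicClosure ℚ ℂ) ℂ :=
  Submodule.span (algebraicClosure ℚ ℂ) ({1} ∪ {z : ℂ | IsAlgebraic ℚ (Complex.exp z)})

/-- `β` belongs to the field `k = End(ℂ/Ω) ⊗ ℚ`: some multiple `m β`, `m ≥ 1`, maps the lattice `Ω`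
to itself. -/
def IsMult (L : PeriodPair) (β : ℂ) : Prop :=
  ∃ m : ℕ, 0 < m ∧ ∀ ω ∈ L.lattice, (m : ℂ) * β * ω ∈ L.lattice

/-- the `p_i` are elliptic logarithms of algebraic points (the elements of the lattice are allowed)
and linearly independent over `k` -/
def EllipticLogs (L : PeriodPair) {m : ℕ} (p : Fin m → ℂ) : Prop :=
  (∀ i, p i ∈ L.lattice ∨ IsAlgebraic ℚ (℘[L] (p i))) ∧
  ∀ β : Fin m → ℂ, (∀ i, IsMult L (β i)) → ∑ i, β i * p i = 0 → ∀ i, β i = 0

/-- `y` is independent modulo `F`, and the numbers `p_i`, `y_i` have no relation of degree at most `D`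
in every `y_i` and of total degree at most `1` in the `p_i` (of degree at most `D` in `p`, if there is
only one `p`) which is linear in elements of `LogForms` independent modulo `F` and `y` -/
def NoRelation {m n : ℕ} (D : ℕ) (p : Fin m → ℂ) (F : Submodule (algebraicClosure ℚ ℂ) ℂ)
    (y : Fin n → ℂ) : Prop :=
  (∀ c : Fin n → algebraicClosure ℚ ℂ, ∑ i, c i • y i ∈ F → c = 0) ∧
  ∀ (t : ℕ) (l : Fin t → ℂ), (∀ j, l j ∈ LogForms) →
    (∀ c : Fin t → algebraicClosure ℚ ℂ, ∑ j, c j • l j ∈ F ⊔
      Submodule.span (algebraicClosure ℚ ℂ) (Set.range y) → c = 0) →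
    ∀ P : MvPolynomial (Fin m ⊕ (Fin n ⊕ Fin t)) (algebraicClosure ℚ ℂ),
      (∀ β ∈ P.support, ∑ i, β (Sum.inl i) ≤ 1 ∨ (m = 1 ∧ ∑ i, β (Sum.inl i) ≤ D)) →
      (∀ i, P.degreeOf (Sum.inr (Sum.inl i)) ≤ D) →
      (∀ β ∈ P.support, ∑ j, β (Sum.inr (Sum.inr j)) ≤ 1) →
      aeval (Sum.elim p (Sum.elim y l)) P = 0 → P = 0

theorem noRelation_of {m n D : ℕ} {p : Fin m → ℂ} {F : Submodule (algebraicClosure ℚ ℂ) ℂ}
    {y : Fin n → ℂ} (h : Pool.Agent.R350.NoRelL D p F y) : NoRelation D p F y := h

open Classical in
/-- **Main result.** -/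
theorem result (m n D : ℕ) : ∃ (k₀ C : ℕ) (δ : ℝ), 0 < δ ∧ ∀ L : PeriodPair,
    IsAlgebraic ℚ L.g₂ → IsAlgebraic ℚ L.g₃ → ∀ p : Fin m → ℂ, EllipticLogs L p →
    ∃ F : Submodule (algebraicClosure ℚ ℂ) ℂ, Module.Finite (algebraicClosure ℚ ℂ) F ∧
      finrank (algebraicClosure ℚ ℂ) F ≤ (m + D + 2) ^ 3 + 1 ∧ F ≤ LogForms ∧
      ∀ k ≥ k₀, ∀ lam : Fin n → Fin k → ℂ, (∀ j i, lam j i ∈ LogForms) →
        (∀ j, LinearIndependent (algebraicClosure ℚ ℂ) (lam j)) →
        ∀ ζ : Fin n → ℂ, (∀ j, ζ j ∈ LogForms) →
        ∀ X : Finset ℚ, X.Nonempty →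
        (((Fintype.piFinset fun _ : Fin n => Fintype.piFinset fun _ : Fin k => X).filter fun a =>
          ¬ NoRelation D p F (fun j => ζ j + ∑ i, (a j i : ℂ) * lam j i)).card : ℝ) ≤
          C * (X.card : ℝ) ^ ((n * k : ℝ) - δ * k) := by
  obtain ⟨k₀, C, δ, hδ, h⟩ := Run7.h788.rand_lin D n (m + (D + 1)) 0
  refine ⟨k₀, C, δ, hδ, fun L hg2 hg3 p hp => ?_⟩
  obtain ⟨W, hWf, hWr, hmain⟩ := Pool.Agent.R350.ell_setup hg2 hg3 D hp
  have hS := Pool.Agent.R350.setup_complex
  obtain ⟨h1, h2, h3, -⟩ := Pool.Agent.R350.exSp_bound hS.hyp hS.one W hWr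
  refine ⟨Pool.Agent.R350.exSp Pool.Agent.H301R2.SSE.Lt W, h1, h2.trans (le_of_eq (by ring)), h3,
    fun k hk lam hlam hli ζ hζ X hX => ?_⟩
  have h5 := h k hk (algebraicClosure ℚ ℂ) ℂ Pool.Agent.H301R2.SSE.Lt hS.hyp hS.one W hWf hWr lam
    hlam hli X hX ζ hζ
  refine le_trans ?_ h5
  exact_mod_cast Finset.card_le_card fun a ha => by
    rw [Finset.mem_filter] at ha ⊢
    exact ⟨ha.1, fun hgood => ha.2 (noRelation_of (hmain n _ hgood))⟩

end Pool.Agent.Results.MP_c9768e_nt.RandomCombinations
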