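import Mathlib
import Pool.Agent.Run7.h643.MW.RunsM
import Pool.Agent.Run7.h643.MW.EllMix

/-!
# Elliptic logarithms, quasi-logarithms and logarithms on several elliptic curves, in windows chosen one after the other
# and over consecutive primes in several intervals

Let `Λ_j`, `j < t`, be lattices with rational invariants; the same lattice may occur several times, and the elliptic
curves may be isogenous. We consider the split semi-elliptic logarithms `u`, `l` with `℘(u) = exp(l) = x` for algebraic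
numbers `x`, and the numbers `ζ(u)`, which are the logarithms of the points over `x` of the extensions of the elliptic
curves by the additive group.

(1) Numbers `x = ξ_j + n` are chosen in `t` steps. In step `j` the lattice `Λ_j` is used; we are given an algebraic number
`ξ_j` of degree at most `m` and of height at most `|ξ_j|^A`, and a bound `H_j` with `|ξ_j| ≥ (H_j + 2)^((δ + 2)^C)`. Both may
depend on all choices made before, so the windows `ξ_j + 1, …, ξ_j + H_j` may be in any position to each other. We choose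
`r_j` numbers in this window. At most `τ + 1 + ρ + 3 ∑_(i<j) r_i` numbers `n` have to be avoided in step `j`, which depend
only on the earlier choices; `ρ` is the transcendence degree of the field generated by the periods and quasi-periods of
all the lattices and `2πi`, `τ` the number of further arbitrary constants. Then between all numbers `u`, `ζ(u)`, `l` there
is no relation of degree at most `δ` over number fields of degree at most `δ`, the periods and the further constants.

(2) There are a number `L` and an infinite set `M` of natural numbers such that for all `N_1, …, N_t` in `M` and arbitrary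
constants `w` there are in each of the intervals `(N_j, N_j + L]` `r` consecutive prime numbers such that between all `u`,
`ζ(u)`, `l` over these `t r` primes (`u` a logarithm for `Λ_j` over the primes in the interval number `j`) there is no
relation of degree at most `δ` over number fields of degree at most `δ`, the periods and the `w`, for all `δ` up to a
power of `log min N_j`. The set `M` does not depend on `w`, and the `N_j` may be in any position to each other.

For `t = 1` and `δ` fixed (1) is the starting result `AlgebraicWindows` of this problem. The proof uses the values at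
algebraic points (`Pool.Agent.R351.GD.InpE`, `LinkU`) of the starting library, the passage from one window to the next, in
which the earlier numbers become constants, and, for (2), the theorem of Maynard and Tao (starting files,
`Pool.Agent.H362R2.CM.quarter`).
-/

set_option autoImplicit false

open scoped PeriodPair

namespace Pool.Agent.Results.MP_c9768e_nt.WindowsAndPrimes

/-- The Weierstrass zeta function `ζ(z) = ∑ (1/(z-l) + 1/l + z/l²)`, the sum over the lattice (the summand of `l = 0` is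
`1/z`, since `1/0 = 0` in Lean). -/
noncomputable def zeta (Λ : PeriodPair) (z : ℂ) : ℂ := ∑' l : Λ.lattice, (1 / (z - l) + 1 / l + z / l ^ 2)

/-- The periods `ω₁`, `ω₂` and the half quasi-periods `ζ(ω₁/2)`, `ζ(ω₂/2)` of all the lattices, and `2πi`. -/
noncomputable def periods {t : ℕ} (Λ : Fin t → PeriodPair) (x : Fin t × Fin 5) : ℂ :=
  (![(Λ x.1).ω₁, (Λ x.1).ω₂, zeta (Λ x.1) ((Λ x.1).ω₁ / 2), zeta (Λ x.1) ((Λ x.1).ω₂ / 2),
    2 * Real.pi * Complex.I] : Fin 5 → ℂ) x.2

/-- The numbers `u_(j,i)`, `ζ_j(u_(j,i))` and `l_(j,i)`. -/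
noncomputable def number {t : ℕ} (Λ : Fin t → PeriodPair) {r : Fin t → ℕ} (u l : ∀ j, Fin (r j) → ℂ)
    (x : Σ j, Fin (r j) × Fin 3) : ℂ :=
  (![u x.1 x.2.1, zeta (Λ x.1) (u x.1 x.2.1), l x.1 x.2.1] : Fin 3 → ℂ) x.2.2

/-- The numbers `x` are free up to degree `δ` over the constants `w` and `c`: if `K` is a number field of degree at most
`δ` and `P` is a polynomial over `K` of degree at most `δ` with `P(w, c, x) = 0`, then `P(w, c, Y) = 0` identically in
`Y`. -/
def Free (δ : ℕ) {τ : ℕ} {υ ι : Type} (w : Fin τ → ℂ) (c : υ → ℂ) (x : ι → ℂ) : Prop :=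
  ∀ K : IntermediateField ℚ ℂ, FiniteDimensional ℚ K → Module.finrank ℚ K ≤ δ →
  ∀ P : MvPolynomial ((Fin τ ⊕ υ) ⊕ ι) K, P.totalDegree ≤ δ →
    MvPolynomial.aeval (Sum.elim (Sum.elim w c) x) P = 0 →
    MvPolynomial.aeval (Sum.elim (fun j => MvPolynomial.C (Sum.elim w c j)) MvPolynomial.X) P = (0 : MvPolynomial ι ℂ)

/-- The choices: `r i` integers in the window number `i`. -/
abbrev Choices {t : ℕ} (r : Fin t → ℕ) : Type := ∀ i : Fin t, Fin (r i) → ℕ

theorem free_of_isEmpty (δ : ℕ) {τ : ℕ} {υ ι : Type} [IsEmpty ι] (w : Fin τ → ℂ) (c : υ → ℂ) (x : ι → ℂ) :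
    Free δ w c x := by
  intro K _ _ P _ hP0
  apply MvPolynomial.funext
  intro z
  rw [Pool.Agent.Run7.h643.MX.eval_aeval, map_zero, ← hP0]
  congr 2
  funext a
  rcases a with a | a
  · rfl
  · exact isEmptyElim a

/-- Let `Λ_j`, `j < t`, be lattices with rational invariants `g₂`, `g₃`.

(1) For all `r_j`, `m`, `A`, `τ` there is `C` such that for all `δ`, all `w_1, …, w_τ ∈ ℂ` and all functions `ξ_j`, `H_j` of
the choices `n_i`, `i < j`, there are sets `T_j`, functions of the same choices, of at most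
`τ + 1 + 3 ∑_(i<j) r_i + trdeg ℚ(periods)` integers with this property: let `n` be choices such that for all `j` the number
`ξ_j` is a root of a nonzero integral polynomial of degree at most `m` with coefficients at most `|ξ_j|^A`,
`|ξ_j| ≥ (H_j + 2)^((δ + 2)^C)`, and the `n_(j,i)` are distinct integers in `[1, H_j]` outside `T_j`; then for all `u`, `l`
with `℘_j(u_(j,i)) = exp(l_(j,i)) = ξ_j + n_(j,i)` the numbers `u_(j,i)`, `ζ_j(u_(j,i))`, `l_(j,i)` are free up to degree `δ`
over `w` and the periods.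

(2) For all `r`, `τ` there are `L`, `C` and an infinite set `M` of natural numbers such that for all `N_1, …, N_t` in `M` and
all `w_1, …, w_τ ∈ ℂ` there are for all `j` `r` consecutive primes `p_(j,1) < … < p_(j,r)` in `(N_j, N_j + L]`, such that for
all `δ` with `(δ + 2)^C ≤ log N_j` for all `j` and all `u`, `l` with `℘_j(u_(j,i)) = exp(l_(j,i)) = p_(j,i)` the numbers
`u_(j,i)`, `ζ_j(u_(j,i))`, `l_(j,i)` are free up to degree `δ` over `w` and the periods. -/
theorem result {t : ℕ} (Λ : Fin t → PeriodPair) (a b : Fin t → ℚ) (ha : ∀ j, (Λ j).g₂ = a j)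
    (hb : ∀ j, (Λ j).g₃ = b j) :
    (∀ (r : Fin t → ℕ) (m A τ : ℕ), ∃ C : ℕ, ∀ (δ : ℕ) (w : Fin τ → ℂ) (H : Fin t → Choices r → ℕ)
        (ξ : Fin t → Choices r → ℂ),
      (∀ j n n', (∀ i, i < j → n i = n' i) → H j n = H j n' ∧ ξ j n = ξ j n') →
      ∃ T : Fin t → Choices r → Finset ℕ,
        (∀ j n, ((T j n).card : Cardinal) ≤ ((τ + 1 + ∑ i ∈ Finset.Iio j, r i * 3 : ℕ) : Cardinal) +
          Algebra.trdeg ℚ (IntermediateField.adjoin ℚ (Set.range (periods Λ)))) ∧
        (∀ j n n', (∀ i, i < j → n i = n' i) → T j n = T j n') ∧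
        ∀ n : Choices r, (∀ j, ((H j n : ℝ) + 2) ^ ((δ + 2) ^ C) ≤ ‖ξ j n‖) →
          (∀ j, ∃ p : Polynomial ℤ, p ≠ 0 ∧ p.natDegree ≤ m ∧ (∀ l, |(p.coeff l : ℝ)| ≤ ‖ξ j n‖ ^ A) ∧
            Polynomial.aeval (ξ j n) p = 0) →
          (∀ j, Function.Injective (n j)) → (∀ j i, 1 ≤ n j i ∧ n j i ≤ H j n ∧ n j i ∉ T j n) →
          ∀ u l : ∀ j, Fin (r j) → ℂ,
            (∀ j i, u j i ∉ (Λ j).lattice ∧ ℘[Λ j] (u j i) = ξ j n + n j i ∧ Complex.exp (l j i) = ξ j n + n j i) →
            Free δ w (periods Λ) (number Λ u l)) ∧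
    (∀ r τ : ℕ, ∃ (L C : ℕ) (M : Set ℕ), M.Infinite ∧ ∀ N : Fin t → ℕ, (∀ j, N j ∈ M) → ∀ w : Fin τ → ℂ,
      ∃ k : Fin t → ℕ,
        (∀ j (i : Fin r), N j < Nat.nth Nat.Prime (k j + i) ∧ Nat.nth Nat.Prime (k j + i) ≤ N j + L) ∧
        ∀ δ : ℕ, (∀ j, ((δ : ℝ) + 2) ^ C ≤ Real.log (N j)) → ∀ u l : Fin t → Fin r → ℂ,
          (∀ j i, u j i ∉ (Λ j).lattice ∧ ℘[Λ j] (u j i) = Nat.nth Nat.Prime (k j + i) ∧
            Complex.exp (l j i) = Nat.nth Nat.Prime (k j + i)) →
          Free δ w (periods Λ) (number Λ (r := fun _ => r) u l)) := by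
  classical
  refine ⟨fun r m A τ => ?_, fun r τ => ?_⟩
  · obtain ⟨E, ⟨C, hC⟩, hE⟩ := Pool.Agent.Run7.h643.MX.ellMix Λ a b ha hb r m A τ
    refine ⟨C, fun δ w H ξ hdep => ?_⟩
    obtain ⟨T, hT1, hT2, hT3⟩ := hE δ w H ξ hdep
    refine ⟨T, hT1, hT2, fun n hξ hht hinj hn u l hul => hT3 n (fun j => ?_) hht hinj hn u l hul⟩
    refine (pow_le_pow_right₀ ?_ (hC δ)).trans (hξ j)
    have : (0 : ℝ) ≤ H j n := Nat.cast_nonneg _
    linarith
  rcases Nat.eq_zero_or_pos r with hr | hr
  · subst hr
    refine ⟨0, 1, Set.univ, Set.infinite_univ, fun N _ w => ⟨fun _ => 0, fun j i => i.elim0, fun δ _ u l _ => ?_⟩⟩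
    have hE : IsEmpty (Σ j : Fin t, Fin ((fun _ => 0 : Fin t → ℕ) j) × Fin 3) := ⟨fun x => x.2.1.elim0⟩
    exact free_of_isEmpty δ w _ _
  obtain ⟨E, ⟨C, hC⟩, hE⟩ := Pool.Agent.Run7.h643.MX.ellMix Λ a b ha hb (fun _ => r) 1 1 τ
  obtain ⟨L, M, hM, hL⟩ := Pool.Agent.Run7.h643.MW.runsM r (τ + 1 + t * (r * 3) + t * 5) C hr
  refine ⟨L, C + 1, M, hM, fun N hN w => ?_⟩
  obtain ⟨k, hk, hfree⟩ := hL t N hN (fun δ n => (∀ j, 1 ≤ N j) → ∀ u l : Fin t → Fin r → ℂ,
      (∀ j i, u j i ∉ (Λ j).lattice ∧ ℘[Λ j] (u j i) = (N j : ℂ) + n j i ∧ Complex.exp (l j i) = (N j : ℂ) + n j i) →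
      Free δ w (periods Λ) (number Λ (r := fun _ => r) u l))
    (fun δ δ' n hgood hle hN u l hul K hK hKd P hPd => hgood hN u l hul K hK (hKd.trans hle) P (hPd.trans hle))
    (fun δ hLN => by
      obtain ⟨T, hT1, hT2, hT3⟩ := hE δ w (fun _ _ => L) (fun j _ => (N j : ℂ)) (fun _ _ _ _ => ⟨rfl, rfl⟩)
      refine ⟨T, fun j n => ?_, hT2, fun n hinj hn hN1 u l hul => ?_⟩
      · have h2 := Pool.Agent.Run7.h643.MW.trdeg_adj (Pool.Agent.Run7.h643.MX.perM Λ)
        have h3 : ((T j n).card : Cardinal) ≤ ((τ + 1 + t * (r * 3) + t * 5 : ℕ) : Cardinal) := by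
          refine (hT1 j n).trans ?_
          have h4 : (∑ i ∈ Finset.Iio j, r * 3) ≤ t * (r * 3) := by
            rw [Finset.sum_const, smul_eq_mul]
            refine Nat.mul_le_mul_right _ ?_
            refine (Finset.card_le_univ _).trans ?_
            rw [Fintype.card_fin]
          have h5 : Fintype.card (Fin t × Fin 5) = t * 5 := by
            rw [Fintype.card_prod, Fintype.card_fin, Fintype.card_fin]
          rw [h5] at h2
          calc ((τ + 1 + ∑ i ∈ Finset.Iio j, r * 3 : ℕ) : Cardinal) + _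
              ≤ ((τ + 1 + t * (r * 3) : ℕ) : Cardinal) + ((t * 5 : ℕ) : Cardinal) := by
                gcongr
            _ = _ := by push_cast; ring
        exact_mod_cast h3
      · refine hT3 n (fun j => ?_) (fun j => Pool.Agent.R351.GD.ht_nat (hN1 j)) hinj hn u l hul
        rw [Complex.norm_natCast]
        refine le_trans (pow_le_pow_right₀ ?_ (hC δ)) (hLN j)
        linarith [(Nat.cast_nonneg L : (0 : ℝ) ≤ L)])
  refine ⟨k, hk, fun δ hδ u l hul => ?_⟩
  rcases Nat.eq_zero_or_pos t with ht | ht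
  · subst ht
    have hE : IsEmpty (Σ j : Fin 0, Fin ((fun _ => r : Fin 0 → ℕ) j) × Fin 3) := ⟨fun x => x.1.elim0⟩
    exact free_of_isEmpty δ w _ _
  refine hfree ht δ hδ (fun j => ?_) u l (fun j i => ?_)
  · have h1 := hδ j
    by_contra h
    have h2 : N j = 0 := by omega
    rw [h2, Nat.cast_zero, Real.log_zero] at h1
    have h3 : (0 : ℝ) < ((δ : ℝ) + 2) ^ (C + 1) := by positivity
    linarith
  · have h10 := (hk j i).1
    have h11 : (N j : ℂ) + ((Nat.nth Nat.Prime (k j + i) - N j : ℕ) : ℂ) = Nat.nth Nat.Prime (k j + i) := by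
      rw [Nat.cast_sub h10.le, add_sub_cancel]
    rw [h11]
    exact hul j i

end Pool.Agent.Results.MP_c9768e_nt.WindowsAndPrimes
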